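import Pool.Agent.H68.QC.TargetsF
import Pool.Agent.H70.OQ.Basic

/-!
# FAL: the functions of the sections
-/

set_option autoImplicit false

namespace Pool.Agent.H40.QC

open Finset Filter Pool.Agent.H70.OQ Pool.Agent.H70.RK Pool.Agent.H70.RC
open Pool.Agent.H68.QC

theorem cod_unique (hUNI : T_UNI) {a b l r l' r' N : ℕ} (ha : a = 1 ∨ a = 3) (hb : b = 1 ∨ b = 3)
    (h1 : Cod a l r N) (h2 : Cod b l' r' N) : a = b ∧ l = l' ∧ r = r' := by
  refine hUNI a b l r l' r' ha hb h1.1 h2.1 ?_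
  have h3 := h1.2
  have h4 := h2.2
  unfold nod at h3 h4
  rw [← h3, ← h4]

theorem fAll_one (hUNI : T_UNI) {l r N : ℕ} (h : Cod 1 l r N) :
    fAll N = fX l (2 ^ r) N := by
  funext X
  unfold fAll
  have h1 : ∃ p : ℕ × ℕ, Cod 1 p.1 p.2 N := ⟨(l, r), h⟩
  rw [dif_pos h1]
  obtain ⟨-, h2, h3⟩ := cod_unique hUNI (Or.inl rfl) (Or.inl rfl) h h1.choose_spec
  rw [← h2, ← h3]

theorem fAll_three (hUNI : T_UNI) {l r N : ℕ} (h : Cod 3 l r N) :
    fAll N = fR l (3 * 2 ^ r) N := by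
  funext X
  unfold fAll
  have h0 : ¬ ∃ p : ℕ × ℕ, Cod 1 p.1 p.2 N := by
    rintro ⟨p, hp⟩
    have h1 := (cod_unique hUNI (Or.inl rfl) (Or.inr rfl) hp h).1
    omega
  have h1 : ∃ p : ℕ × ℕ, Cod 3 p.1 p.2 N := ⟨(l, r), h⟩
  rw [dif_neg h0, dif_pos h1]
  obtain ⟨-, h2, h3⟩ := cod_unique hUNI (Or.inr rfl) (Or.inr rfl) h h1.choose_spec
  rw [← h2, ← h3]

theorem hid_ne (n l : ℕ) : Nonempty (Hid (Fin n → Bool) (Ys n) l) := hid_nonempty l

theorem pf_FAL (hUNI : T_UNI) (hFXU : T_FXU) (hSCX : T_SCX) : T_FAL := by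
  have hA : ∀ l r, 1 ≤ l → fAll (nod (2 ^ r) l) = fX l (2 ^ r) (nod (2 ^ r) l) := by
    intro l r hl
    exact fAll_one hUNI ⟨hl, by rw [one_mul]⟩
  have hB : ∀ l r, 1 ≤ l → fAll (nod (3 * 2 ^ r) l) = fR l (3 * 2 ^ r) (nod (3 * 2 ^ r) l) := by
    intro l r hl
    exact fAll_three hUNI ⟨hl, rfl⟩
  refine ⟨?_, hA, hB, ?_⟩
  · intro N
    by_cases h1 : ∃ p : ℕ × ℕ, Cod 1 p.1 p.2 N
    · obtain ⟨p, hp⟩ := h1
      rw [fAll_one hUNI hp]
      have hN : N = nod (2 ^ p.2) p.1 := by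
        have := hp.2
        rwa [one_mul] at this
      obtain ⟨n, hn⟩ : ∃ n, 2 ^ p.2 = n + 1 := ⟨2 ^ p.2 - 1, by
        have : 0 < 2 ^ p.2 := by positivity
        omega⟩
      rw [hN, hn]
      obtain ⟨H⟩ := hid_ne (n + 1) p.1
      refine ⟨mkX (n + 1) p.1 (nod (n + 1) p.1) (tabU p.1 H fun _ => true), fun h => ?_⟩
      rw [(hFXU p.1 n H fun _ => true).1] at h
      exact absurd h (by simp)
    · by_cases h2 : ∃ p : ℕ × ℕ, Cod 3 p.1 p.2 N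
      · obtain ⟨p, hp⟩ := h2
        rw [fAll_three hUNI hp]
        have hN : N = nod (3 * 2 ^ p.2) p.1 := hp.2
        obtain ⟨n, hn⟩ : ∃ n, 3 * 2 ^ p.2 = n + 1 := ⟨3 * 2 ^ p.2 - 1, by
          have : 0 < 2 ^ p.2 := by positivity
          omega⟩
        rw [hN, hn]
        obtain ⟨H⟩ := hid_ne (n + 1) p.1
        refine ⟨mkX (n + 1) p.1 (nod (n + 1) p.1) (tabU p.1 H fun _ => true), fun h => ?_⟩
        rw [(hFXU p.1 n H fun _ => true).2.1] at h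
        exact absurd h (by simp)
      · refine ⟨fun _ => false, ?_⟩
        unfold fAll
        rw [dif_neg h1, dif_neg h2]
        simp
  · intro O hO l hl r
    have h1 := hO (nod (2 ^ r) l)
    rw [hA l r hl] at h1
    have h2 : ∃! u : List Bool, u.length = 2 ^ r ∧
        Special l (orc (nod (2 ^ r) l) (sec O (nod (2 ^ r) l))) u := by
      by_contra h3
      apply h1
      unfold fX
      rw [if_neg h3]
    obtain ⟨u, hu, huu⟩ := h2
    have h4 := (hSCX l (2 ^ r) O (sec O (nod (2 ^ r) l)) rfl).1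
    refine ⟨u, ⟨hu.1, (h4 u hu.1).2 hu.2⟩, ?_⟩
    rintro v ⟨hv1, hv2⟩
    exact huu v ⟨hv1, (h4 v hv1).1 hv2⟩

end Pool.Agent.H40.QC
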